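import Pool.Agent.W169.HF.DefsD

/-!
# Project GLD (helper169), NET: bounds on finitely many lines give a bound in a rectangle
-/

set_option autoImplicit false

open Complex MeasureTheory Filter Topology Set
open scoped ComplexConjugate

namespace Pool.Agent.W193.HF

open Pool.Agent.W169.HF

lemma phx_mono {x r s : ℝ} (hx : 0 < x) (hr : 0 ≤ r) (hrs : r ≤ s) :
    phx x r ≤ phx x s ∧ phx x s ≤ phx x r + (s - r) := by
  have h0 : 0 ≤ max (x - s) 0 := le_max_right _ _
  have h1 : max (x - s) 0 ≤ max (x - r) 0 := max_le_max (by linarith) le_rfl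
  have h2 : max (x - r) 0 ≤ max (x - s) 0 + (s - r) := by
    apply max_le
    · have := le_max_left (x - s) 0
      linarith
    · linarith
  have h3 : max (x - r) 0 ≤ x := max_le (by linarith) hx.le
  have h4 : max (x - s) 0 ≤ x := h1.trans h3
  have e : max (x - r) 0 ^ 2 / (2 * x) - max (x - s) 0 ^ 2 / (2 * x) =
      (max (x - r) 0 ^ 2 - max (x - s) 0 ^ 2) / (2 * x) := by ring
  have h5 : 0 ≤ (max (x - r) 0 ^ 2 - max (x - s) 0 ^ 2) / (2 * x) := by
    apply div_nonneg _ (by positivity)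
    nlinarith
  have h6 : (max (x - r) 0 ^ 2 - max (x - s) 0 ^ 2) / (2 * x) ≤ s - r := by
    rw [div_le_iff₀ (by positivity)]
    nlinarith
  unfold phx
  constructor
  · linarith
  · linarith

lemma le_phx {x r : ℝ} (hx : 0 < x) : r ≤ phx x r := by
  unfold phx
  have : 0 ≤ max (x - r) 0 ^ 2 / (2 * x) := by positivity
  linarith

lemma phx_le {x r : ℝ} (hx : 0 < x) (hr : 0 ≤ r) : phx x r ≤ r + x := by
  have h3 : max (x - r) 0 ≤ x := max_le (by linarith) hx.le
  have h0 : 0 ≤ max (x - r) 0 := le_max_right _ _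
  unfold phx
  have : max (x - r) 0 ^ 2 / (2 * x) ≤ x := by
    rw [div_le_iff₀ (by positivity)]
    nlinarith
  linarith

lemma fe_norm {K ϑ0 ℓ G : ℝ} {f : ℂ → ℂ} (h : UD K ϑ0 ℓ G f) (u : ℂ) : ‖f u‖ = ‖f (-conj u)‖ := by
  obtain ⟨ε, hε, he⟩ := h.fe
  rw [he u, norm_mul, hε, one_mul, Complex.norm_conj]

lemma re_nc (u : ℂ) : (-conj u).re = -u.re := by simp

lemma im_nc (u : ℂ) : (-conj u).im = u.im := by simp

lemma exp_bd {G a b : ℝ} (hG : 0 < G) (h : a ≤ b) : G * Real.exp a ≤ G * Real.exp b :=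
  mul_le_mul_of_nonneg_left (Real.exp_le_exp.2 h) hG.le

theorem net_of (h5 : S_RECT) : S_NET := by
  intro K ϑ0 x κ R hK hϑ1 hϑ2 hx hκ hR
  obtain ⟨M, hM⟩ := exists_nat_ge (2 / κ + 1)
  have hMpos : (1 : ℝ) ≤ M := by
    have : 0 < 2 / κ := by positivity
    linarith
  have hM1 : 1 ≤ M := by exact_mod_cast hMpos
  obtain ⟨ρ, hρd⟩ : ∃ ρ : ℝ, ρ = 1 / (2 * M) := ⟨_, rfl⟩
  have hρ0 : 0 < ρ := by rw [hρd]; positivity
  have hMρ : (M : ℝ) * ρ = 1 / 2 := by
    rw [hρd]
    field_simp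
  have hρκ : ρ ≤ κ / 4 := by
    have h1 : 2 / κ ≤ M := by linarith
    rw [div_le_iff₀ hκ] at h1
    nlinarith
  have hρ2 : ρ ≤ 1 / 2 := by nlinarith
  obtain ⟨κa, Ra, hκa, hRa, ha⟩ := h5 (3 + x) ρ (κ / 4) R (by linarith) hρ0 (by linarith)
    (by linarith) hR
  obtain ⟨κb, Rb, hκb, hRb, hb⟩ := h5 (3 + x) (2 * ρ) (κ / 4) R (by linarith) (by linarith)
    (by linarith) (by linarith) hR
  obtain ⟨κ1, hκ1d⟩ : ∃ κ1 : ℝ, κ1 = min (min κa κb) (κ / 4) := ⟨_, rfl⟩
  have hκ1 : 0 < κ1 := by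
    rw [hκ1d]
    exact lt_min (lt_min hκa hκb) (by linarith)
  have hκ1a : κ1 ≤ κa := by rw [hκ1d]; exact (min_le_left _ _).trans (min_le_left _ _)
  have hκ1b : κ1 ≤ κb := by rw [hκ1d]; exact (min_le_left _ _).trans (min_le_right _ _)
  have hκ1c : κ1 ≤ κ / 4 := by rw [hκ1d]; exact min_le_right _ _
  obtain ⟨R1, hR1d⟩ : ∃ R1 : ℝ, R1 = max Ra Rb := ⟨_, rfl⟩
  have hR1a : Ra ≤ R1 := by rw [hR1d]; exact le_max_left _ _
  have hR1b : Rb ≤ R1 := by rw [hR1d]; exact le_max_right _ _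
  have hRR1 : R ≤ R1 := hRa.trans hR1a
  refine ⟨M, κ1, R1, K * (2 + R1 ^ 2), hM1, hκ1, by linarith, ?_⟩
  intro ℓ G f hℓ hU hPf hline
  have hG := hU.hG
  have hℓ0 : 0 ≤ ℓ := le_trans (by positivity) hℓ
  have hdiff : Differentiable ℂ f := hU.slow.1
  have e1 : (1 : ℝ) / 2 + 1 / (2 * M) = 1 / 2 + ρ := by rw [hρd]
  rw [e1] at hPf
  -- the lines
  have hl : ∀ k : ℕ, 1 ≤ k → k ≤ M → ∀ u : ℂ, u.re = k * ρ → |u.im| ≤ R1 →
      ‖f u‖ ≤ G * Real.exp (ℓ * phx x (k * ρ) + κ1 * ℓ) := by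
    intro k hk1 hk2 u hu1 hu2
    have h := hline k hk1 hk2 u.im hu2
    have e2 : (k : ℝ) / (2 * M) = k * ρ := by
      rw [hρd]
      ring
    rw [e2] at h
    have e3 : (((k * ρ : ℝ) : ℂ) + u.im * I) = u := by
      rw [← hu1]
      exact Complex.re_add_im u
    rwa [e3] at h
  -- the horizontal sides
  have hs : ∀ (R' : ℝ) (u : ℂ), 0 ≤ R' → R' ≤ R1 → |u.re| ≤ 1 / 2 → |u.im| = R' →
      ‖f u‖ ≤ G * Real.exp ((3 + x) * ℓ) := by
    intro R' u h0 h1 h2 h3
    refine (hU.up u).trans (exp_bd hG ?_)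
    have h4 : ‖u‖ ^ 2 ≤ 1 + R1 ^ 2 := by
      rw [Complex.sq_norm, Complex.normSq_apply]
      have h5 : u.re * u.re ≤ 1 := by
        rw [← sq, ← sq_abs]
        have := abs_nonneg u.re
        nlinarith
      have h6 : u.im * u.im ≤ R1 ^ 2 := by
        rw [← sq, ← sq_abs, h3]
        exact pow_le_pow_left₀ h0 h1 2
      linarith
    have h7 : max |u.re| ϑ0 ≤ 2 := max_le (by linarith) hϑ2
    have h8 : K * (1 + ‖u‖ ^ 2) ≤ ℓ := by
      refine le_trans ?_ hℓ
      have : 1 + ‖u‖ ^ 2 ≤ 2 + R1 ^ 2 := by linarith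
      exact mul_le_mul_of_nonneg_left this (by linarith)
    have h9 : ℓ * max |u.re| ϑ0 ≤ ℓ * 2 := mul_le_mul_of_nonneg_left h7 hℓ0
    have h10 : 0 ≤ x * ℓ := by positivity
    linarith
  -- nonnegative real part
  have main : ∀ u : ℂ, 0 ≤ u.re → u.re ≤ R → |u.im| ≤ R →
      ‖f u‖ ≤ G * Real.exp (ℓ * phx x u.re + κ * ℓ) := by
    intro u hu0 hu1 hu2
    rcases le_or_gt (1 / 2) u.re with hc | hc
    · have h := hPf.upp u (by rw [abs_of_nonneg hu0]; linarith) (by linarith)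
      refine h.trans (exp_bd hG ?_)
      rw [abs_of_nonneg hu0]
      have h1 : max u.re (1 / 2 + ρ) ≤ phx x u.re + ρ := by
        have := le_phx (x := x) (r := u.re) hx
        apply max_le <;> linarith
      have h2 := mul_le_mul_of_nonneg_left h1 hℓ0
      have h3 : ρ * ℓ ≤ κ / 4 * ℓ := mul_le_mul_of_nonneg_right hρκ hℓ0
      have h4 : κ1 * ℓ ≤ κ / 4 * ℓ := mul_le_mul_of_nonneg_right hκ1c hℓ0
      have h5 : 0 ≤ κ * ℓ := by positivity
      nlinarith
    rcases le_total u.re ρ with hd | hd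
    · -- the strip around the line
      have hA : |phx x ρ| ≤ 3 + x := by
        rw [abs_of_nonneg (hρ0.le.trans (le_phx hx))]
        have := phx_le hx hρ0.le
        linarith
      have hl1 : ∀ v : ℂ, v.re = ρ → |v.im| ≤ Rb →
          ‖f v‖ ≤ G * Real.exp (ℓ * phx x ρ + κb * ℓ) := by
        intro v hv1 hv2
        have h := hl 1 le_rfl hM1 v (by rw [hv1]; simp) (hv2.trans hR1b)
        rw [Nat.cast_one, one_mul] at h
        refine h.trans (exp_bd hG ?_)
        have := mul_le_mul_of_nonneg_right hκ1b hℓ0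
        linarith
      have h := hb ℓ (-ρ) (phx x ρ) (phx x ρ) G f hℓ0 hG hdiff hA hA
        (by
          intro v hv1 hv2
          rw [fe_norm hU v]
          exact hl1 _ (by rw [re_nc, hv1, neg_neg]) (by rw [im_nc]; exact hv2))
        (by
          intro v hv1 hv2
          exact hl1 v (by rw [hv1]; ring) hv2)
        (by
          intro v hv1 hv2 hv3
          refine hs Rb v (by linarith) hR1b ?_ hv3
          rw [abs_le]
          constructor <;> linarith) u (by linarith) (by linarith) hu2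
      refine h.trans (exp_bd hG ?_)
      have h1 := (phx_mono hx hu0 hd).2
      have h2 : ℓ * phx x ρ ≤ ℓ * (phx x u.re + ρ) :=
        mul_le_mul_of_nonneg_left (by linarith) hℓ0
      have h3 : ρ * ℓ ≤ κ / 4 * ℓ := mul_le_mul_of_nonneg_right hρκ hℓ0
      have h5 : 0 ≤ κ * ℓ := by positivity
      have e5 : ℓ * (phx x ρ + (phx x ρ - phx x ρ) * ((u.re - -ρ) / (2 * ρ))) + κ / 4 * ℓ =
          ℓ * phx x ρ + κ / 4 * ℓ := by ring
      rw [e5]
      nlinarith
    · -- the rectangles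
      obtain ⟨k, hkd⟩ : ∃ k : ℕ, k = ⌊u.re / ρ⌋₊ := ⟨_, rfl⟩
      have hk0 : (k : ℝ) ≤ u.re / ρ := by rw [hkd]; exact Nat.floor_le (by positivity)
      have hk1 : u.re / ρ < k + 1 := by rw [hkd]; exact Nat.lt_floor_add_one _
      have hk2 : 1 ≤ k := by
        rw [hkd]
        exact Nat.le_floor (by rw [Nat.cast_one, le_div_iff₀ hρ0]; linarith)
      rw [le_div_iff₀ hρ0] at hk0
      rw [div_lt_iff₀ hρ0] at hk1
      by_cases hkM : k + 1 ≤ M
      · have hkM' : ((k : ℝ) + 1) * ρ ≤ 1 / 2 := by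
          rw [← hMρ]
          exact mul_le_mul_of_nonneg_right (by exact_mod_cast hkM) hρ0.le
        have hk3 : 0 ≤ (k : ℝ) * ρ := by positivity
        have hk4 : 0 ≤ ((k : ℝ) + 1) * ρ := by positivity
        have hA : ∀ r : ℝ, 0 ≤ r → r ≤ 1 / 2 → |phx x r| ≤ 3 + x := by
          intro r hr0 hr1
          rw [abs_of_nonneg (hr0.trans (le_phx hx))]
          have := phx_le hx hr0
          linarith
        have h := ha ℓ (k * ρ) (phx x (k * ρ)) (phx x ((k + 1) * ρ)) G f hℓ0 hG hdiff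
          (hA _ hk3 (by nlinarith)) (hA _ hk4 hkM')
          (by
            intro v hv1 hv2
            refine (hl k hk2 (by omega) v hv1 (hv2.trans hR1a)).trans (exp_bd hG ?_)
            have := mul_le_mul_of_nonneg_right hκ1a hℓ0
            linarith)
          (by
            intro v hv1 hv2
            have h := hl (k + 1) (by omega) hkM v (by rw [hv1]; push_cast; ring)
              (hv2.trans hR1a)
            push_cast at h
            refine h.trans (exp_bd hG ?_)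
            have := mul_le_mul_of_nonneg_right hκ1a hℓ0
            linarith)
          (by
            intro v hv1 hv2 hv3
            refine hs Ra v (by linarith) hR1a ?_ hv3
            rw [abs_le]
            constructor <;> nlinarith) u hk0 (by nlinarith) hu2
        refine h.trans (exp_bd hG ?_)
        have h1 := phx_mono hx hu0 (le_of_lt hk1)
        have h2 := phx_mono hx hk3 (by nlinarith : (k : ℝ) * ρ ≤ (k + 1) * ρ)
        have h3 : (u.re - k * ρ) / ρ ≤ 1 := by
          rw [div_le_one hρ0]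
          linarith
        have h4 : phx x (k * ρ) + (phx x ((k + 1) * ρ) - phx x (k * ρ)) *
            ((u.re - k * ρ) / ρ) ≤ phx x u.re + ρ := by
          have h5 : (phx x ((k + 1) * ρ) - phx x (k * ρ)) * ((u.re - k * ρ) / ρ) ≤
              (phx x ((k + 1) * ρ) - phx x (k * ρ)) * 1 :=
            mul_le_mul_of_nonneg_left h3 (by linarith [h2.1])
          have h6 : ((k : ℝ) + 1) * ρ - u.re ≤ ρ := by linarith
          linarith [h1.2]
        have h5 := mul_le_mul_of_nonneg_left h4 hℓ0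
        have h6 : ρ * ℓ ≤ κ / 4 * ℓ := mul_le_mul_of_nonneg_right hρκ hℓ0
        have h7 : 0 ≤ κ * ℓ := by positivity
        nlinarith
      · exfalso
        have h1 : (M : ℝ) ≤ k := by exact_mod_cast (by omega : M ≤ k)
        have h2 : (M : ℝ) * ρ ≤ k * ρ := mul_le_mul_of_nonneg_right h1 hρ0.le
        rw [hMρ] at h2
        linarith
  intro u hu1 hu2
  rcases le_total 0 u.re with h | h
  · rw [abs_of_nonneg h] at hu1 ⊢
    exact main u h hu1 hu2
  · rw [fe_norm hU u, abs_of_nonpos h]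
    rw [abs_of_nonpos h] at hu1
    have h1 := main (-conj u) (by rw [re_nc]; linarith) (by rw [re_nc]; exact hu1)
      (by rw [im_nc]; exact hu2)
    rwa [re_nc] at h1

end Pool.Agent.W193.HF
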